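import Pool.Agent.H66.L.S8.TH80.OMS.ND
import Pool.Agent.H66.L.S8.W782.SC.PSI
import Pool.Agent.H66.L.S8.W699.SC.GC

/-!
# Families of diffeomorphisms supported in a chart: translations and dilations
-/

set_option autoImplicit false
set_option linter.unusedSectionVars false

open scoped Manifold ContDiff Topology NNReal
open Filter Set Metric

universe u

namespace Pool.Agent.TH80.OMS

open Pool.Agent.H718R2.G Pool.Agent.W564.SC Pool.Agent.TH290.CL Pool.Agent.TH80.CLX

/-- a smooth family of diffeomorphisms of `ℝⁿ` supported in the ball of radius `1/2` -/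
structure LFam (j n : ℕ) (F F' : V j × V n → V n) : Prop where
  smooth : ContDiff ℝ ∞ F
  smooth' : ContDiff ℝ ∞ F'
  inv : ∀ x v, F' (x, F (x, v)) = v
  inv' : ∀ x v, F (x, F' (x, v)) = v
  supp : ∀ x v, v ∉ closedBall (0 : V n) (1 / 2) → F (x, v) = v
  supp' : ∀ x v, v ∉ closedBall (0 : V n) (1 / 2) → F' (x, v) = v
  zero : ∀ v, F (0, v) = v

theorem trans_family (n : ℕ) : ∃ (F F' : V n × V n → V n) (κ : ℝ), 0 < κ ∧ LFam n n F F' ∧
    ∀ x v, ‖x‖ < κ → ‖v‖ < 1 / 4 → F (x, v) = v + x := by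
  obtain ⟨F, F', κ, hκ0, -, hF, hF', hi, hi', ho, ho', h0, hm⟩ :=
    Pool.Agent.W782.SC.local_family n
  exact ⟨F, F', κ, hκ0, ⟨hF, hF', hi, hi', ho, ho', h0⟩, hm⟩

/-- The family of dilations `v ↦ (1 + s) v`, cut off. The maps are radial. -/
theorem dil_family (n : ℕ) : ∃ (F F' : V 1 × V n → V n) (κ : ℝ), 0 < κ ∧ κ ≤ 1 / 2 ∧
    LFam 1 n F F' ∧ (∀ x v, ‖x‖ < κ → ‖v‖ < 1 / 4 → F (x, v) = (1 + x 0) • v) ∧
    ∀ x, ∃ f : V n → ℝ, (∀ v v', ‖v‖ = ‖v'‖ → f v = f v') ∧ ∀ v, F (x, v) = f v • v := by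
  set β : V n → ℝ := fun v => Real.smoothTransition ((4 - 16 * ‖v‖ ^ 2) / 3) with hβ
  have hβs : ContDiff ℝ ∞ β := by
    have h1 : ContDiff ℝ ∞ (fun v : V n => (4 - 16 * ‖v‖ ^ 2) / 3) := by
      have h2 : ContDiff ℝ ∞ (fun v : V n => ‖v‖ ^ 2) := contDiff_norm_sq ℝ
      exact ((contDiff_const.sub (contDiff_const.mul h2)).div_const 3)
    exact Real.smoothTransition.contDiff.comp h1
  have hβ0 : ∀ v, 1 / 2 ≤ ‖v‖ → β v = 0 := by
    intro v hv
    apply Real.smoothTransition.zero_of_nonpos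
    have : 0 ≤ ‖v‖ := norm_nonneg v
    nlinarith
  have hβ1 : ∀ v, ‖v‖ ≤ 1 / 4 → β v = 1 := by
    intro v hv
    apply Real.smoothTransition.one_of_one_le
    have : 0 ≤ ‖v‖ := norm_nonneg v
    nlinarith
  have hβn : ∀ v, 0 ≤ β v := fun v => Real.smoothTransition.nonneg _
  have hβl : ∀ v, β v ≤ 1 := fun v => Real.smoothTransition.le_one _
  set b : V n → V n := fun v => β v • v with hb
  have hbs : ContDiff ℝ ∞ b := hβs.smul contDiff_id
  have hbc : HasCompactSupport b := by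
    apply HasCompactSupport.intro (isCompact_closedBall (0 : V n) (1 / 2))
    intro v hv
    rw [mem_closedBall, dist_zero_right, not_le] at hv
    rw [hb]
    simp only
    rw [hβ0 v hv.le, zero_smul]
  obtain ⟨C, hC⟩ := ContDiff.lipschitzWith_of_hasCompactSupport (𝕂 := ℝ) (n := ∞)
    hbc hbs (by simp)
  have hbb : ∀ v, ‖b v‖ ≤ 1 / 2 := by
    intro v
    by_cases hv : 1 / 2 ≤ ‖v‖
    · have h0 : β v = 0 := hβ0 v hv
      rw [hb]
      simp only
      rw [h0, zero_smul, norm_zero]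
      norm_num
    · rw [hb]
      simp only
      rw [norm_smul, Real.norm_eq_abs, abs_of_nonneg (hβn v)]
      calc β v * ‖v‖ ≤ 1 * (1 / 2) := mul_le_mul (hβl v) (not_le.1 hv).le (norm_nonneg _)
            zero_le_one
        _ = 1 / 2 := one_mul _
  set c : ℝ := 1 / (8 * (C + 1)) with hc
  have hC0 : (0 : ℝ) ≤ C := C.coe_nonneg
  have hc0 : 0 < c := by rw [hc]; positivity
  have hc1 : c ≤ 1 / 8 := by
    rw [hc, div_le_div_iff₀ (by positivity) (by norm_num)]
    linarith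
  have hcC : 2 * c * C ≤ 1 / 4 := by
    rw [hc]
    have : 2 * (1 / (8 * ((C : ℝ) + 1))) * C = C / (4 * (C + 1)) := by
      field_simp
      ring
    rw [this, div_le_div_iff₀ (by positivity) (by norm_num)]
    nlinarith
  let γ : ContDiffBump (0 : V 1) := ⟨c, 2 * c, hc0, by linarith⟩
  have hγs : ContDiff ℝ ∞ (γ : V 1 → ℝ) := γ.contDiff
  have h0s : ContDiff ℝ ∞ (fun x : V 1 => x 0) := by fun_prop
  set η : V 1 → ℝ := fun x => γ x * x 0 with hη
  have hηs : ContDiff ℝ ∞ η := hγs.mul h0s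
  have hηc : HasCompactSupport η := γ.hasCompactSupport.mul_right
  obtain ⟨L, hL⟩ := ContDiff.lipschitzWith_of_hasCompactSupport (𝕂 := ℝ) (n := ∞)
    hηc hηs (by simp)
  have hL0 : (0 : ℝ) ≤ L := L.coe_nonneg
  have hx0 : ∀ x : V 1, |x 0| ≤ ‖x‖ := by
    intro x
    have := PiLp.norm_apply_le x 0
    rwa [Real.norm_eq_abs] at this
  have hηb : ∀ x, ‖η x‖ ≤ 2 * c := by
    intro x
    by_cases hx : 2 * c ≤ ‖x‖
    · have h0 : γ x = 0 := by
        apply γ.zero_of_le_dist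
        rw [dist_zero_right]
        exact hx
      rw [hη]
      simp only
      rw [h0, zero_mul, norm_zero]
      positivity
    · rw [hη]
      simp only
      rw [norm_mul, Real.norm_eq_abs, abs_of_nonneg γ.nonneg]
      calc γ x * ‖x 0‖ ≤ 1 * (2 * c) := mul_le_mul γ.le_one
            ((hx0 x).trans (not_le.1 hx).le) (norm_nonneg _) zero_le_one
        _ = 2 * c := one_mul _
  have hηx : ∀ x, ‖x‖ < c → η x = x 0 := by
    intro x hx
    rw [hη]
    simp only
    rw [γ.one_of_mem_closedBall, one_mul]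
    rw [Metric.mem_closedBall, dist_zero_right]
    exact hx.le
  set t : ℝ := 1 / (4 * (L + 1)) with ht
  have ht0 : 0 < t := by rw [ht]; positivity
  have htL : L * t ≤ 1 / 4 := by
    rw [ht]
    have : (L : ℝ) * (1 / (4 * ((L : ℝ) + 1))) = L / (4 * (L + 1)) := by
      field_simp
    rw [this, div_le_div_iff₀ (by positivity) (by norm_num)]
    nlinarith
  set g : V 1 × V n → V 1 × V n := fun p => (0, η (t • p.1) • b p.2) with hg
  have hgs : ContDiff ℝ ∞ g := by
    refine contDiff_const.prodMk ?_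
    exact (hηs.comp (contDiff_fst.const_smul t)).smul (hbs.comp contDiff_snd)
  have hgl : LipschitzWith (1 / 2) g := by
    refine LipschitzWith.of_dist_le_mul fun p p' => ?_
    have h1 : dist (g p) (g p') = ‖η (t • p.1) • b p.2 - η (t • p'.1) • b p'.2‖ := by
      rw [Prod.dist_eq, hg]
      simp only [dist_self]
      rw [max_eq_right dist_nonneg, dist_eq_norm]
    have h2 : η (t • p.1) • b p.2 - η (t • p'.1) • b p'.2 =
        η (t • p.1) • (b p.2 - b p'.2) + (η (t • p.1) - η (t • p'.1)) • b p'.2 := by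
      rw [sub_smul, smul_sub]
      abel
    have h3 : ‖η (t • p.1) • (b p.2 - b p'.2)‖ ≤ 1 / 4 * dist p p' := by
      rw [norm_smul]
      have h4 := hC.norm_sub_le p.2 p'.2
      have h5 : ‖p.2 - p'.2‖ ≤ dist p p' := by
        rw [← dist_eq_norm, Prod.dist_eq]
        exact le_max_right _ _
      calc ‖η (t • p.1)‖ * ‖b p.2 - b p'.2‖ ≤ (2 * c) * (C * ‖p.2 - p'.2‖) :=
            mul_le_mul (hηb _) h4 (norm_nonneg _) (by positivity)
        _ = (2 * c * C) * ‖p.2 - p'.2‖ := by ring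
        _ ≤ 1 / 4 * dist p p' := mul_le_mul hcC h5 (norm_nonneg _) (by norm_num)
    have h6 : ‖(η (t • p.1) - η (t • p'.1)) • b p'.2‖ ≤ 1 / 4 * dist p p' := by
      rw [norm_smul]
      have h4 := hL.norm_sub_le (t • p.1) (t • p'.1)
      have h5 : ‖p.1 - p'.1‖ ≤ dist p p' := by
        rw [← dist_eq_norm, Prod.dist_eq]
        exact le_max_left _ _
      have h7 : ‖t • p.1 - t • p'.1‖ = t * ‖p.1 - p'.1‖ := by
        rw [← smul_sub, norm_smul, Real.norm_eq_abs, abs_of_pos ht0]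
      rw [h7] at h4
      calc ‖η (t • p.1) - η (t • p'.1)‖ * ‖b p'.2‖ ≤ (L * (t * ‖p.1 - p'.1‖)) * 1 :=
            mul_le_mul h4 ((hbb _).trans (by norm_num)) (norm_nonneg _) (by positivity)
        _ = (L * t) * ‖p.1 - p'.1‖ := by ring
        _ ≤ 1 / 4 * dist p p' := mul_le_mul htL h5 (norm_nonneg _) (by norm_num)
    rw [h1, h2]
    have h8 : (((1 / 2 : ℝ≥0)) : ℝ) = 1 / 2 := by simp
    rw [h8]
    refine (norm_add_le _ _).trans ?_
    linarith
  obtain ⟨H, hH1, hH2, hH3⟩ := Pool.Agent.W782.SC.perturb g hgs le_rfl hgl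
  have hH : ∀ a v, H (a, v) = (a, v + η (t • a) • b v) := by
    intro a v
    rw [hH3, hg]
    simp
  have hHs1 : ∀ a v, (H.symm (a, v)).1 = a := by
    intro a v
    have h1 := H.apply_symm_apply (a, v)
    have h2 : H (H.symm (a, v)) = H ((H.symm (a, v)).1, (H.symm (a, v)).2) := rfl
    rw [h2, hH] at h1
    exact congrArg Prod.fst h1
  set F : V 1 × V n → V n := fun q => q.2 + η q.1 • b q.2 with hF
  set F' : V 1 × V n → V n := fun q => (H.symm (t⁻¹ • q.1, q.2)).2 with hF'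
  have hHF : ∀ x v, H (t⁻¹ • x, v) = (t⁻¹ • x, F (x, v)) := by
    intro x v
    have e : t • t⁻¹ • x = x := smul_inv_smul₀ ht0.ne' x
    rw [hH, e]
  have hinv1 : ∀ x v, F' (x, F (x, v)) = v := by
    intro x v
    have h1 : F' (x, F (x, v)) = (H.symm (t⁻¹ • x, F (x, v))).2 := rfl
    rw [h1, ← hHF, H.symm_apply_apply]
  have hinv2 : ∀ x v, F (x, F' (x, v)) = v := by
    intro x v
    have h1 := H.apply_symm_apply (t⁻¹ • x, v)
    have h2 : H.symm (t⁻¹ • x, v) = (t⁻¹ • x, F' (x, v)) := Prod.ext (hHs1 _ _) rfl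
    rw [h2, hHF] at h1
    exact congrArg Prod.snd h1
  have hout : ∀ x v, v ∉ Metric.closedBall (0 : V n) (1 / 2) → F (x, v) = v := by
    intro x v hv
    have h0 : β v = 0 := by
      rw [mem_closedBall, dist_zero_right, not_le] at hv
      exact hβ0 v hv.le
    rw [hF]
    simp only
    rw [hb]
    simp only
    rw [h0, zero_smul, smul_zero, add_zero]
  refine ⟨F, F', c, hc0, by linarith, ⟨?_, ?_, hinv1, hinv2, hout, ?_, ?_⟩, ?_, ?_⟩
  · exact contDiff_snd.add ((hηs.comp contDiff_fst).smul (hbs.comp contDiff_snd))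
  · exact contDiff_snd.comp (hH2.comp ((contDiff_fst.const_smul t⁻¹).prodMk contDiff_snd))
  · intro x v hv
    have h1 := hinv1 x v
    rw [hout x v hv] at h1
    exact h1
  · intro v
    have h0 : η 0 = 0 := by rw [hη]; simp
    rw [hF]
    simp only
    rw [h0, zero_smul, add_zero]
  · intro x v hx hv
    rw [hF]
    simp only
    rw [hηx x hx, hb]
    simp only
    rw [hβ1 v hv.le, one_smul, add_smul, one_smul]
  · intro x
    refine ⟨fun v => 1 + η x * β v, fun v v' hvv => ?_, fun v => ?_⟩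
    · show 1 + η x * β v = 1 + η x * β v'
      rw [hβ]
      simp only
      rw [hvv]
    · show v + η x • (β v • v) = (1 + η x * β v) • v
      rw [add_smul, one_smul, mul_smul (η x) (β v) v]

section tr

open Classical in
/-- The transplanted family. -/
noncomputable def tr {j n : ℕ} {N : Type*} [TopologicalSpace N]
    (χ : OpenPartialHomeomorph N (V n)) (F : V j × V n → V n) (x : V j) (y : N) : N :=
  if y ∈ χ.source then χ.symm (F (x, χ y)) else y

theorem tr_source {j n : ℕ} {N : Type*} [TopologicalSpace N]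
    {χ : OpenPartialHomeomorph N (V n)} {F : V j × V n → V n} {x : V j} {y : N}
    (hy : y ∈ χ.source) : tr χ F x y = χ.symm (F (x, χ y)) := by
  unfold tr; rw [if_pos hy]

theorem tr_not_source {j n : ℕ} {N : Type*} [TopologicalSpace N]
    {χ : OpenPartialHomeomorph N (V n)} {F : V j × V n → V n} {x : V j} {y : N}
    (hy : y ∉ χ.source) : tr χ F x y = y := by
  unfold tr; rw [if_neg hy]

theorem tr_id {j n : ℕ} {N : Type*} [TopologicalSpace N]
    {χ : OpenPartialHomeomorph N (V n)} {A : Set (V n)} {F : V j × V n → V n}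
    (hid : ∀ x, ∀ v ∉ A, F (x, v) = v) {x : V j} {y : N} (hy : y ∉ χ.symm '' A) :
    tr χ F x y = y := by
  by_cases hs : y ∈ χ.source
  · rw [tr_source hs]
    have h1 : χ y ∉ A := fun h => hy ⟨χ y, h, χ.left_inv hs⟩
    rw [hid _ _ h1, χ.left_inv hs]
  · exact tr_not_source hs

theorem maps_target {j n : ℕ} {N : Type*} [TopologicalSpace N]
    {χ : OpenPartialHomeomorph N (V n)} {A : Set (V n)} (hA : A ⊆ χ.target)
    {F F' : V j × V n → V n} (hinv : ∀ x v, F' (x, F (x, v)) = v)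
    (hid : ∀ x, ∀ v ∉ A, F (x, v) = v) {x : V j} {v : V n} (hv : v ∈ χ.target) :
    F (x, v) ∈ χ.target := by
  by_cases h : v ∈ A
  · apply hA
    by_contra hcon
    have h1 := hid x _ hcon
    have h2 := hinv x (F (x, v))
    rw [h1, hinv] at h2
    exact hcon (by rw [← h2]; exact h)
  · rw [hid x v h]; exact hv

theorem tr_smooth {j n : ℕ} {N : Type*} [TopologicalSpace N] [ChartedSpace (V n) N]
    [IsManifold (𝓡 n) ∞ N] {χ : OpenPartialHomeomorph N (V n)}
    (hχ : χ ∈ IsManifold.maximalAtlas (𝓡 n) ∞ N) {A : Set (V n)} (hA : A ⊆ χ.target)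
    (hcl : IsClosed (χ.symm '' A)) {F F' : V j × V n → V n}
    (hinv : ∀ x v, F' (x, F (x, v)) = v)
    (hF : ContDiff ℝ ∞ F) (hid : ∀ x, ∀ v ∉ A, F (x, v) = v) :
    ContMDiff ((𝓡 j).prod (𝓡 n)) (𝓡 n) ∞ (fun q : V j × N => tr χ F q.1 q.2) := by
  intro q
  by_cases hy : q.2 ∈ χ.source
  · have h1 : ContMDiffAt (𝓡 n) (𝓡 n) ∞ χ q.2 :=
      (contMDiffOn_of_mem_maximalAtlas hχ _ hy).contMDiffAt (χ.open_source.mem_nhds hy)
    have ht : F (q.1, χ q.2) ∈ χ.target := maps_target hA hinv hid (χ.map_source hy)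
    have h2 : ContMDiffAt (𝓡 n) (𝓡 n) ∞ χ.symm (F (q.1, χ q.2)) :=
      (contMDiffOn_symm_of_mem_maximalAtlas hχ _ ht).contMDiffAt (χ.open_target.mem_nhds ht)
    have h3 : ContMDiffAt ((𝓡 j).prod (𝓡 n)) (𝓡 n) ∞ (fun q : V j × N => χ q.2) q :=
      h1.comp q contMDiffAt_snd
    have h4 : ContMDiffAt ((𝓡 j).prod (𝓡 n)) 𝓘(ℝ, V j × V n) ∞
        (fun q : V j × N => (q.1, χ q.2)) q :=
      (contMDiffAt_fst).prodMk_space h3
    have h5 : ContMDiffAt ((𝓡 j).prod (𝓡 n)) (𝓡 n) ∞ (fun q : V j × N => F (q.1, χ q.2)) q :=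
      (hF.contMDiff.contMDiffAt).comp q h4
    have h6 : ContMDiffAt ((𝓡 j).prod (𝓡 n)) (𝓡 n) ∞
        (fun q : V j × N => χ.symm (F (q.1, χ q.2))) q := h2.comp q h5
    refine h6.congr_of_eventuallyEq ?_
    filter_upwards [continuous_snd.continuousAt.preimage_mem_nhds (χ.open_source.mem_nhds hy)]
      with p hp
    exact tr_source hp
  · have hy' : q.2 ∈ (χ.symm '' A)ᶜ := by
      rintro ⟨v, hv, h⟩
      exact hy (by rw [← h]; exact χ.map_target (hA hv))
    have h5 : ContMDiffAt ((𝓡 j).prod (𝓡 n)) (𝓡 n) ∞ (fun q : V j × N => q.2) q :=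
      contMDiffAt_snd
    refine h5.congr_of_eventuallyEq ?_
    filter_upwards [continuous_snd.continuousAt.preimage_mem_nhds
      (hcl.isOpen_compl.mem_nhds hy')] with p hp
    exact tr_id hid hp

theorem tr_inv {j n : ℕ} {N : Type*} [TopologicalSpace N]
    {χ : OpenPartialHomeomorph N (V n)} {A : Set (V n)} (hA : A ⊆ χ.target)
    {F F' : V j × V n → V n} (hinv : ∀ x v, F' (x, F (x, v)) = v)
    (hid : ∀ x, ∀ v ∉ A, F (x, v) = v) (x : V j) (y : N) :
    tr χ F' x (tr χ F x y) = y := by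
  by_cases hy : y ∈ χ.source
  · have h1 : F (x, χ y) ∈ χ.target := maps_target hA hinv hid (χ.map_source hy)
    rw [tr_source hy, tr_source (χ.map_target h1), χ.right_inv h1, hinv, χ.left_inv hy]
  · rw [tr_not_source (F := F) hy, tr_not_source hy]

/-- The family of diffeomorphisms of `N` obtained from a family of diffeomorphisms of `ℝⁿ`,
composed with `G`. -/
theorem push_family {n : ℕ} {N : Type u} [TopologicalSpace N] [T2Space N] [ChartedSpace (V n) N]
    [IsManifold (𝓡 n) ∞ N] (r : ℕ∞) (G : DiffM n N r) {χ : OpenPartialHomeomorph N (V n)} {z : N}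
    (hg : GoodChart n N χ z) {j : ℕ} {F F' : V j × V n → V n} (hF : LFam j n F F') :
    ∃ (Ψ : V j → N → N) (H : V j → DiffM n N r), IsFam n N r H ∧ H 0 = G ∧
      (∀ s y, H s y = G (Ψ s y)) ∧ (∀ y, Ψ 0 y = y) ∧ (∀ s, Continuous (Ψ s)) ∧
      (∀ s, Function.Injective (Ψ s)) ∧
      (∀ s, ∀ y ∈ χ.source, Ψ s y ∈ χ.source ∧ χ (Ψ s y) = F (s, χ y)) ∧
      (∀ s, ∀ y ∉ χ.symm '' closedBall (0 : V n) (1 / 2), Ψ s y = y) := by
  have hA : Metric.closedBall (0 : V n) (1 / 2) ⊆ χ.target :=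
    (Metric.closedBall_subset_closedBall (by norm_num)).trans hg.ball
  have hcl : IsClosed (χ.symm '' Metric.closedBall (0 : V n) (1 / 2)) :=
    ((isCompact_closedBall _ _).image_of_continuousOn
      (χ.continuousOn_symm.mono hA)).isClosed
  have hs := tr_smooth hg.mem hA hcl hF.inv hF.smooth hF.supp
  have hs' := tr_smooth hg.mem hA hcl hF.inv' hF.smooth' hF.supp'
  have hr : ((r : ℕ∞) : WithTop ℕ∞) ≤ ∞ := by exact_mod_cast le_top
  have hs1 : ∀ x : V j, ContMDiff (𝓡 n) (𝓡 n) ∞ (tr χ F x) := by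
    intro x
    exact hs.comp (contMDiff_const.prodMk contMDiff_id)
  have hs1' : ∀ x : V j, ContMDiff (𝓡 n) (𝓡 n) ∞ (tr χ F' x) := by
    intro x
    exact hs'.comp (contMDiff_const.prodMk contMDiff_id)
  have h0 : ∀ y, tr χ F 0 y = y := by
    intro y
    by_cases hy : y ∈ χ.source
    · rw [tr_source hy, hF.zero, χ.left_inv hy]
    · exact tr_not_source hy
  let Ψ : V j → DiffM n N r := fun x =>
    ⟨⟨tr χ F x, tr χ F' x, tr_inv hA hF.inv hF.supp x, tr_inv hA hF.inv' hF.supp' x⟩,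
      (hs1 x).of_le hr, (hs1' x).of_le hr⟩
  have hΨ : ∀ x y, Ψ x y = tr χ F x y := fun x y => rfl
  refine ⟨fun x => tr χ F x, fun x => (Ψ x).trans G, ?_, ?_, ?_, h0, fun x => (hs1 x).continuous,
    fun x => (Ψ x).injective, ?_, ?_⟩
  · intro y
    exact (G.contMDiff.comp (hs.of_le hr)).contMDiffAt
  · ext y
    show G (tr χ F 0 y) = G y
    rw [h0]
  · intro s y
    rfl
  · intro s y hy
    have h1 : F (s, χ y) ∈ χ.target := maps_target hA hF.inv hF.supp (χ.map_source hy)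
    show tr χ F s y ∈ χ.source ∧ χ (tr χ F s y) = F (s, χ y)
    rw [tr_source hy]
    exact ⟨χ.map_target h1, χ.right_inv h1⟩
  · intro s y hy
    exact tr_id hF.supp hy

end tr

/-- good charts with small domains -/
theorem small_chart {n : ℕ} {N : Type u} [TopologicalSpace N] [ChartedSpace (V n) N]
    [IsManifold (𝓡 n) ∞ N] (z : N) (O : Set N) (hO : IsOpen O) (hz : z ∈ O) :
    ∃ χ : OpenPartialHomeomorph N (V n), GoodChart n N χ z ∧ χ.source ⊆ O := by
  obtain ⟨φ, hm, hs, hsO⟩ : ∃ φ : OpenPartialHomeomorph N (V n),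
      φ ∈ IsManifold.maximalAtlas (𝓡 n) ∞ N ∧ z ∈ φ.source ∧ φ.source ⊆ O := by
    refine ⟨(chartAt (V n) z).restr O, ?_, ?_, ?_⟩
    · exact restr_mem_maximalAtlas _ (IsManifold.chart_mem_maximalAtlas z) hO
    · rw [OpenPartialHomeomorph.restr_source, hO.interior_eq]
      exact ⟨mem_chart_source _ z, hz⟩
    · rw [OpenPartialHomeomorph.restr_source, hO.interior_eq]
      exact inter_subset_right
  have ht : φ z ∈ φ.target := φ.map_source hs
  obtain ⟨ε, hε, hball⟩ := Metric.nhds_basis_closedBall.mem_iff.mp (φ.open_target.mem_nhds ht)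
  have h1 : ContDiff ℝ ∞ (fun v : V n => ε⁻¹ • (v - φ z)) := by fun_prop
  have h2 : ContDiff ℝ ∞ (fun w : V n => ε • w + φ z) := by fun_prop
  refine ⟨φ.transHomeomorph (Pool.Agent.W699.SC.hom (φ z) ε hε.ne'), ⟨?_, ?_, ?_, ?_⟩, hsO⟩
  · apply OpenPartialHomeomorph.mem_maximalAtlas_of_contMDiffOn
    · have : ContMDiffOn (𝓡 n) (𝓡 n) ∞ ((fun v : V n => ε⁻¹ • (v - φ z)) ∘ φ) φ.source :=
        h1.contMDiff.comp_contMDiffOn (contMDiffOn_of_mem_maximalAtlas hm)
      exact this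
    · have : ContMDiffOn (𝓡 n) (𝓡 n) ∞ (φ.symm ∘ (fun w : V n => ε • w + φ z))
          ((fun w : V n => ε • w + φ z) ⁻¹' φ.target) :=
        (contMDiffOn_symm_of_mem_maximalAtlas hm).comp h2.contMDiff.contMDiffOn (fun w hw => hw)
      exact this
  · exact hs
  · change ε⁻¹ • (φ z - φ z) = 0
    rw [sub_self, smul_zero]
  · intro w hw
    change ε • w + φ z ∈ φ.target
    apply hball
    rw [mem_closedBall, dist_eq_norm, add_sub_cancel_right, norm_smul, Real.norm_eq_abs,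
      abs_of_pos hε]
    rw [mem_closedBall, dist_zero_right] at hw
    nlinarith

end Pool.Agent.TH80.OMS
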