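import Pool.Agent.H66.L.S8.TH80.OMS.Defs

/-!
# Symmetric diffeomorphisms: definitions
-/

set_option autoImplicit false

open scoped Manifold ContDiff Topology
open Filter Set Metric

universe u

namespace Pool.Agent.TH80.OMS

open Pool.Agent.H718R2.G Pool.Agent.TH80.CLX

/-- A chart centred at the point `p`, with invariant domain, in which the group acts by linear
isometries. -/
structure LinChart (n : ℕ) {N : Type u} [TopologicalSpace N] [ChartedSpace (V n) N]
    {G : Type} (act : G → N → N) (p : N) (χ : OpenPartialHomeomorph N (V n))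
    (R : G → V n →ₗᵢ[ℝ] V n) : Prop where
  mem : χ ∈ IsManifold.maximalAtlas (𝓡 n) ∞ N
  src : p ∈ χ.source
  zero : χ p = 0
  inv : ∀ g, ∀ y ∈ χ.source, act g y ∈ χ.source
  lin : ∀ g, ∀ y ∈ χ.source, χ (act g y) = R g (χ y)

/-- The subspace `E` is the set of the fixed vectors of a subset of the group, and the group is
transitive on the spheres of `E`. -/
structure Spherical {n : ℕ} {G : Type} (R : G → V n →ₗᵢ[ℝ] V n) (E : Submodule ℝ (V n)) : Prop where
  fix : ∃ S : Set G, ∀ w, w ∈ E ↔ ∀ g ∈ S, R g w = w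
  trans : ∀ u ∈ E, ∀ v ∈ E, ‖u‖ = ‖v‖ → ∃ g, R g u = v

/-- Near the fixed point `p` the action is linear and the tangent space is spanned by spherical
subspaces. (One subspace: the orbits near `p` are spheres. Two-dimensional subspaces: torus actions
with pairwise independent weights.) -/
def IsSpherical (n : ℕ) {N : Type u} [TopologicalSpace N] [ChartedSpace (V n) N] {G : Type}
    (act : G → N → N) (p : N) : Prop :=
  ∃ (χ : OpenPartialHomeomorph N (V n)) (R : G → V n →ₗᵢ[ℝ] V n) (l : ℕ)
    (E : Fin l → Submodule ℝ (V n)), LinChart n act p χ R ∧ (⨆ i, E i) = ⊤ ∧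
    ∀ i, Spherical R (E i)

/-- `p` is a hyperbolic periodic point, of the following kind: for some `m ≥ 1` and some chart,
`F^m(p) = p` and the tangent space is spanned by subspaces `E i` invariant under `D = D(F^m)(p)`, such
that `D` is on `E i` an isometry times a constant `c i ≠ 1`. -/
def IsHypPer (n : ℕ) {N : Type u} [TopologicalSpace N] [ChartedSpace (V n) N]
    (F : N → N) (p : N) : Prop :=
  ∃ m : ℕ, 1 ≤ m ∧ F^[m] p = p ∧ ∃ ψ ∈ IsManifold.maximalAtlas (𝓡 n) ∞ N, p ∈ ψ.source ∧
    ∃ D : V n →L[ℝ] V n, HasFDerivAt (fun u => ψ (F^[m] (ψ.symm u))) D (ψ p) ∧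
    ∃ (l : ℕ) (E : Fin l → Submodule ℝ (V n)) (c : Fin l → ℝ), (⨆ i, E i) = ⊤ ∧
      ∀ i, c i ≠ 1 ∧ ∀ w ∈ E i, D w ∈ E i ∧ ‖D w‖ = c i * ‖w‖

/-- The relative periodic points: `F^m(y) ∈ G y` for some `m ≥ 1`. -/
def RelPer {N : Type u} {G : Type} (F : N → N) (act : G → N → N) : Set N :=
  {y | ∃ m : ℕ, 1 ≤ m ∧ ∃ g, F^[m] y = act g y}

/-- The periodic points. -/
def Per {N : Type u} (F : N → N) : Set N := {y | ∃ m : ℕ, 1 ≤ m ∧ F^[m] y = y}

/-- Every neighbourhood of `F` in `Diff^r(N)` contains some `F'` which commutes with the action and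
whose relative periodic points are dense in its nonwandering set (for instance `F' = F`). -/
def RelDense (n : ℕ) (N : Type u) [TopologicalSpace N] [ChartedSpace (V n) N] (r : ℕ∞)
    (F : DiffM n N r) {G : Type} (act : G → N → N) : Prop :=
  ∀ U : Set (DiffM n N r), IsOpen[strongTop n N r] U → F ∈ U →
    ∃ F' ∈ U, (∀ g y, F' (act g y) = act g (F' y)) ∧ Omega F' ⊆ closure (RelPer F' act)

/-- The space of the orbits of the action embeds into the real line. -/
def IntervalOrbits {N : Type u} [TopologicalSpace N] {G : Type} (act : G → N → N) : Prop :=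
  ∃ s : N → ℝ, Continuous s ∧ ∀ x y, s x = s y ↔ ∃ g, act g x = y

/-- The nonwandering set is the closure of the set of the periodic points and consists of fixed
points of the group. -/
def OmegaFixed {N : Type u} [TopologicalSpace N] {G : Type} (F : N → N) (act : G → N → N) : Prop :=
  Omega F = closure (Per F) ∧ ∀ x ∈ Omega F, ∀ g, act g x = x

/-- The nonwandering set is finite and consists of hyperbolic periodic points; so `F` satisfies
Axiom A. -/
def FiniteHyp (n : ℕ) {N : Type u} [TopologicalSpace N] [ChartedSpace (V n) N] (F : N → N) : Prop :=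
  (Omega F).Finite ∧ ∀ p ∈ Omega F, IsHypPer n F p

end Pool.Agent.TH80.OMS
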